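import Pool.Agent.H.MP_8be4c0_mp.Full.MassGapAll
import Pool.Agent.H.MP_8be4c0_mp.Full.Mass

/-!
Mass gap of the two-dimensional `N`-vector model, `N = n + 3 ≥ 3`, at all inverse temperatures.
-/

namespace Pool.Agent.Results.MP_8be4c0_mp.FullMassGap

open Pool.Agent.NVec Pool.Agent.NVec.Full Filter Topology

theorem result (n : ℕ) (J : ℤ × ℤ → ℝ) (hpos : ∀ m, m ≠ 0 → 0 ≤ J m) (μ₀ : ℝ) (hμ₀ : 0 < μ₀)
    (hJ : Summable fun m : ℤ × ℤ =>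
      |J m| * Real.exp (μ₀ * Real.sqrt ((m.1 : ℝ) ^ 2 + (m.2 : ℝ) ^ 2)))
    (β : ℝ) (hβ : 0 ≤ β) :
    ∃ C μ : ℝ, 0 < μ ∧
      (∀ (L : ℕ) [NeZero L] (x y : Torus L),
        |corr (n + 3) L J β x y| ≤ C * Real.exp (-(μ * tnorm (x - y)))) ∧
      ∀ (F : Filter ℕ) [F.NeBot], F ≤ atTop → ∀ G : ℤ × ℤ → ℝ,
        (∀ j, Tendsto (fun k : ℕ => corr (n + 3) (k + 1) J β 0 (proj (k + 1) j)) F
          (𝓝 (G j))) →
        (∀ j, 0 ≤ G j ∧ G j ≤ C * Real.exp (-(μ * Real.sqrt ((j.1 : ℝ) ^ 2 + (j.2 : ℝ) ^ 2)))) ∧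
        Summable G ∧ (μ : EReal) ≤ liminf (massSeq G) atTop := by
  obtain ⟨C, μ, hμ, hb⟩ := mass_gap_all (n + 1) (by omega) hpos hμ₀ hJ hβ
  refine ⟨C, μ, hμ, hb, fun F _ hF G hG => ?_⟩
  have h1 := limit_bound' hb hF G hG
  refine ⟨fun j => ⟨?_, (le_abs_self _).trans (h1 j)⟩, summable_of_exp hμ h1, mass_ge G h1⟩
  exact ge_of_tendsto' (hG j) fun k => corr_nonneg (n := n + 1) hpos hβ _ _

end Pool.Agent.Results.MP_8be4c0_mp.FullMassGap
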